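import Pool.Agent.helper79.EPT.Spec

/-! Row BTP of project EPT (MP_f10000_nt). -/

set_option autoImplicit false

open scoped Classical

namespace Pool.Agent.EPT

open Finset

theorem BTP_sum (hRS2 : RS2_stmt) {W₁ u α t : ℕ} (ho : Odd W₁) (hok : Ok u α) (hrs : Rs W₁ u t)
    (a b m c : ℕ) :
    ∑ p ∈ (SP (8 * W₁) t a b).filter (fun p => p % m = c % m), 1 / (pr α p : ℝ) ≤
      8 * ∑ p ∈ (SP (8 * W₁) t a b).filter (fun p => p % m = c % m), 1 / (p : ℝ) := by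
  rw [mul_sum]
  apply sum_le_sum
  intro p hp
  rw [mem_filter] at hp
  have hp1 := hp.1
  unfold SP at hp1
  rw [mem_filter] at hp1
  obtain ⟨-, h2, h3, -⟩ := hRS2 W₁ u α t p ho hok hrs hp1.2.2
  have hp0 : (0 : ℝ) < p := by exact_mod_cast hp1.2.1.pos
  have hr0 : (0 : ℝ) < pr α p := by exact_mod_cast h2
  have h3r : (p : ℝ) ≤ 8 * pr α p := by exact_mod_cast h3
  rw [mul_one_div, div_le_div_iff₀ hr0 hp0]
  linarith

theorem BTP (hBTS : BTS_stmt) (hRS2 : RS2_stmt) (hHHB : HHB_stmt) : BTP_stmt := by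
  obtain ⟨C, hC, j₀, hB⟩ := hBTS
  refine ⟨8 * C, by linarith, ?_⟩
  intro W₁ u α t ho hok hrs
  have hW1 : 1 ≤ W₁ := ho.pos
  have ht := (hRS2 W₁ u α t t ho hok hrs rfl).2.2.2.2.2.1
  refine ⟨j₀ + 12 + 4 * W₁, ?_⟩
  intro s hs m c hm hmc
  have hWp : (8 * W₁) ^ 2 ≤ 2 ^ (6 + 2 * W₁) := by
    have h1 : W₁ ≤ 2 ^ W₁ := Nat.lt_two_pow_self.le
    calc (8 * W₁) ^ 2 = 2 ^ 6 * W₁ ^ 2 := by ring
      _ ≤ 2 ^ 6 * (2 ^ W₁) ^ 2 := Nat.mul_le_mul_left _ (Nat.pow_le_pow_left h1 2)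
      _ = 2 ^ (6 + 2 * W₁) := by
        rw [pow_add, ← pow_mul]
        congr 2
        ring
  have hφ : (0 : ℝ) < ((8 * W₁).totient : ℝ) * (m.totient : ℝ) := by
    have h1 : 0 < (8 * W₁).totient := Nat.totient_pos.2 (by omega)
    have h2 : 0 < m.totient := Nat.totient_pos.2 hm
    exact_mod_cast Nat.mul_pos h1 h2
  constructor
  · intro hms
    have hsq : (8 * W₁ * m) ^ 2 ≤ 2 ^ s := by
      calc (8 * W₁ * m) ^ 2 = (8 * W₁) ^ 2 * m ^ 2 := by ring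
        _ ≤ 2 ^ (6 + 2 * W₁) * (2 ^ (s / 4)) ^ 2 := Nat.mul_le_mul hWp (Nat.pow_le_pow_left hms 2)
        _ = 2 ^ (6 + 2 * W₁ + s / 4 * 2) := by
          rw [← pow_mul, ← pow_add]
        _ ≤ 2 ^ s := Nat.pow_le_pow_right (by norm_num) (by omega)
    have h1 := hB (8 * W₁) t m c s (2 * s) (by omega) hm ht hmc (by omega) hsq
    have h2 := (hHHB s 1 (by omega)).2
    have h3 : s * 2 ^ 1 = 2 * s := by ring
    rw [h3] at h2
    push_cast at h2
    refine (BTP_sum hRS2 ho hok hrs s (2 * s) m c).trans ?_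
    calc 8 * ∑ p ∈ (SP (8 * W₁) t s (2 * s)).filter (fun p => p % m = c % m), 1 / (p : ℝ)
        ≤ 8 * (C * HH s (2 * s) / (((8 * W₁).totient : ℝ) * (m.totient : ℝ))) := by linarith
      _ ≤ 8 * (C * 1 / (((8 * W₁).totient : ℝ) * (m.totient : ℝ))) := by
          apply mul_le_mul_of_nonneg_left _ (by norm_num)
          apply div_le_div_of_nonneg_right _ hφ.le
          exact mul_le_mul_of_nonneg_left h2 (by linarith)
      _ = 8 * C / (((8 * W₁).totient : ℝ) * (m.totient : ℝ)) := by ring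
  · intro hms k
    have hsq : (8 * W₁ * m) ^ 2 ≤ 2 ^ (16 * s) := by
      calc (8 * W₁ * m) ^ 2 = (8 * W₁) ^ 2 * m ^ 2 := by ring
        _ ≤ 2 ^ (6 + 2 * W₁) * (2 ^ (6 * s)) ^ 2 := Nat.mul_le_mul hWp (Nat.pow_le_pow_left hms 2)
        _ = 2 ^ (6 + 2 * W₁ + 6 * s * 2) := by
          rw [← pow_mul, ← pow_add]
        _ ≤ 2 ^ (16 * s) := Nat.pow_le_pow_right (by norm_num) (by omega)
    have h1 := hB (8 * W₁) t m c (16 * s) (16 * s * 2 ^ k) (by omega) hm ht hmc (by omega) hsq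
    have h2 := (hHHB (16 * s) k (by omega)).2
    refine (BTP_sum hRS2 ho hok hrs (16 * s) (16 * s * 2 ^ k) m c).trans ?_
    calc 8 * ∑ p ∈ (SP (8 * W₁) t (16 * s) (16 * s * 2 ^ k)).filter (fun p => p % m = c % m),
          1 / (p : ℝ)
        ≤ 8 * (C * HH (16 * s) (16 * s * 2 ^ k) /
            (((8 * W₁).totient : ℝ) * (m.totient : ℝ))) := by linarith
      _ ≤ 8 * (C * k / (((8 * W₁).totient : ℝ) * (m.totient : ℝ))) := by
          apply mul_le_mul_of_nonneg_left _ (by norm_num)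
          apply div_le_div_of_nonneg_right _ hφ.le
          exact mul_le_mul_of_nonneg_left h2 (by linarith)
      _ = 8 * C * k / (((8 * W₁).totient : ℝ) * (m.totient : ℝ)) := by ring

end Pool.Agent.EPT
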